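import Pool.Agent.R559.NP.Near
import Pool.Agent.Results.MP_4ffbf9_nt.AllDegreesCount

/-!
# Ratios of solutions of `A X + B Y = C Z` in products of bounded spread near a given point

Let `φ` be any map from `ℚ` to a metric space `E`, for example the inclusion in `ℝ` or in `ℚ_p`. There
is a set `N ⊆ E` of Hausdorff dimension zero such that for all `ξ ∈ E` outside `N`, all positive
integers `A`, `B`, `C`, all `S`, `Q`, all `τ > 0` (as small as one likes) and all `c` there is `R` with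
the following property: only finitely many ratios `t = A X / (C Z)` of solutions of `A X + B Y = C Z`
with `gcd (X, Y) ≤ Q rad (gcd (X, Y))` in products of spread at most `S` and of degrees at least `R`
(there is no upper bound for the degrees) satisfy `dist (φ t) ξ ≤ c T ^ (-τ)`, where all factors of the
three products are at most `T`. The neighbourhoods are very large: for products of degree `n` the
radius is about `Z ^ (-τ / n)`. For the solutions with `gcd (X, Y) ≤ Q` the same holds with a map of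
the triples `(X, Y, Z)` themselves.

Proof. By `AllDegreesCount` there are for every `ε > 0` some `R` such that `O (T ^ ε)` ratios come from
solutions with all factors at most `T`; the points which are near to infinitely many of them in the
sense above are a set of dimension at most `ε / τ`.
-/

set_option autoImplicit false

namespace Pool.Agent.Results.MP_4ffbf9_nt.RatiosNearAPointH38

open Filter Topology
open Pool.Agent.Results.MP_4ffbf9_nt.AllDegreesCount (IsProduct Solutions Ratios)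

/-- general form: families `F R T` with `O (T ^ ε)` members if `R` is large -/
theorem near_family {K E : Type} [Countable K] [MetricSpace E] (F : ℕ → ℕ → Set K)
    (hT : ∀ R T T', T ≤ T' → F R T ⊆ F R T') (hR : ∀ R T, F (R + 1) T ⊆ F R T)
    (h0 : ∀ R, F (R + 1) 0 = ∅)
    (hc : ∀ ε : ℝ, 0 < ε → ∃ (R : ℕ) (C : ℝ), 0 < C ∧ ∀ T : ℕ, 1 ≤ T →
      (F R T).Finite ∧ ((F R T).ncard : ℝ) ≤ C * (T : ℝ) ^ ε) (φ : K → E) :
    ∃ N : Set E, dimH N = 0 ∧ ∀ ξ : E, ξ ∉ N → ∀ c τ : ℝ, 0 < τ →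
      ∃ R : ℕ, {t : K | ∃ T : ℕ, t ∈ F R T ∧ dist (φ t) ξ ≤ c * (T : ℝ) ^ (-τ)}.Finite := by
  classical
  have hch : ∀ j : ℕ, ∃ (R : ℕ) (C : ℝ), 0 < C ∧ ∀ T : ℕ, 1 ≤ T →
      (F R T).Finite ∧ ((F R T).ncard : ℝ) ≤ C * (T : ℝ) ^ (1 / ((j : ℝ) + 1)) :=
    fun j => hc _ (by positivity)
  choose R C hC hF using hch
  obtain ⟨N, hN, hgood⟩ := Pool.Agent.R559.NP.near_zero (T := K × ℕ) (X := E)
    (H := fun x => max (x.2 : ℝ) 1) (fun x => le_max_right _ _)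
    (Bad := fun j x => IsLeast {T : ℕ | x.1 ∈ F (R j + 1) T} x.2)
    (s := fun j => 1 / ((j : ℝ) + 1)) (fun j => by positivity)
    tendsto_one_div_add_atTop_nhds_zero_nat (fun j ε hε => by
      refine ⟨C j, fun B hB => ?_⟩
      have hfl : (1 : ℕ) ≤ ⌊B⌋₊ := Nat.le_floor (by simpa using hB)
      obtain ⟨h1, h2⟩ := hF j ⌊B⌋₊ hfl
      have hmap : ∀ x ∈ {x : K × ℕ | IsLeast {T : ℕ | x.1 ∈ F (R j + 1) T} x.2 ∧
          max (x.2 : ℝ) 1 ≤ B}, x.1 ∈ F (R j) ⌊B⌋₊ := by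
        rintro x ⟨h3, h4⟩
        have h5 : (x.2 : ℝ) ≤ B := (le_max_left _ _).trans h4
        exact hR _ _ (hT _ _ _ (Nat.le_floor h5) h3.1)
      have hinj : Set.InjOn Prod.fst {x : K × ℕ | IsLeast {T : ℕ | x.1 ∈ F (R j + 1) T} x.2 ∧
          max (x.2 : ℝ) 1 ≤ B} := by
        rintro ⟨a, m⟩ ⟨h3, -⟩ ⟨b, m'⟩ ⟨h4, -⟩ (rfl : a = b)
        simp only [Prod.mk.injEq, true_and]
        exact h3.unique h4
      have hfin : {x : K × ℕ | IsLeast {T : ℕ | x.1 ∈ F (R j + 1) T} x.2 ∧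
          max (x.2 : ℝ) 1 ≤ B}.Finite := by
        refine Set.Finite.of_finite_image (h1.subset ?_) hinj
        rintro _ ⟨x, hx, rfl⟩
        exact hmap x hx
      refine ⟨hfin, ?_⟩
      have hle : {x : K × ℕ | IsLeast {T : ℕ | x.1 ∈ F (R j + 1) T} x.2 ∧
          max (x.2 : ℝ) 1 ≤ B}.ncard ≤ (F (R j) ⌊B⌋₊).ncard := by
        rw [← hinj.ncard_image]
        refine Set.ncard_le_ncard ?_ h1
        rintro _ ⟨x, hx, rfl⟩
        exact hmap x hx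
      have hBf : (⌊B⌋₊ : ℝ) ≤ B := Nat.floor_le (by linarith)
      calc (({x : K × ℕ | IsLeast {T : ℕ | x.1 ∈ F (R j + 1) T} x.2 ∧
          max (x.2 : ℝ) 1 ≤ B}.ncard : ℕ) : ℝ) ≤ ((F (R j) ⌊B⌋₊).ncard : ℝ) := by exact_mod_cast hle
        _ ≤ C j * (⌊B⌋₊ : ℝ) ^ (1 / ((j : ℝ) + 1)) := h2
        _ ≤ C j * B ^ (1 / ((j : ℝ) + 1)) :=
            mul_le_mul_of_nonneg_left (Real.rpow_le_rpow (by positivity) hBf (by positivity)) (hC j).le
        _ ≤ C j * B ^ (1 / ((j : ℝ) + 1) + ε) :=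
            mul_le_mul_of_nonneg_left (Real.rpow_le_rpow_of_exponent_le hB (by linarith)) (hC j).le)
    (fun x => φ x.1)
  refine ⟨N, hN, fun ξ hξ c τ hτ => ?_⟩
  obtain ⟨j, hj⟩ := hgood ξ hξ (max c 0) τ hτ
  refine ⟨R j + 1, (hj.image Prod.fst).subset ?_⟩
  rintro t ⟨T, ht, hd⟩
  have hne : {T : ℕ | t ∈ F (R j + 1) T}.Nonempty := ⟨T, ht⟩
  have hm : t ∈ F (R j + 1) (sInf {T : ℕ | t ∈ F (R j + 1) T}) := Nat.sInf_mem hne
  have hmT : sInf {T : ℕ | t ∈ F (R j + 1) T} ≤ T := Nat.sInf_le ht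
  have hm1 : 1 ≤ sInf {T : ℕ | t ∈ F (R j + 1) T} := by
    rcases Nat.eq_zero_or_pos (sInf {T : ℕ | t ∈ F (R j + 1) T}) with h | h
    · rw [h, h0] at hm
      exact absurd hm (Set.notMem_empty _)
    · exact h
  refine ⟨(t, sInf {T : ℕ | t ∈ F (R j + 1) T}), ⟨?_, ⟨hm, fun T' hT' => Nat.sInf_le hT'⟩⟩, rfl⟩
  have hm1' : (1 : ℝ) ≤ ((sInf {T : ℕ | t ∈ F (R j + 1) T} : ℕ) : ℝ) := by exact_mod_cast hm1
  have hmT' : ((sInf {T : ℕ | t ∈ F (R j + 1) T} : ℕ) : ℝ) ≤ (T : ℝ) := by exact_mod_cast hmT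
  simp only
  rw [max_eq_left hm1']
  calc dist (φ t) ξ ≤ c * (T : ℝ) ^ (-τ) := hd
    _ ≤ max c 0 * (T : ℝ) ^ (-τ) :=
        mul_le_mul_of_nonneg_right (le_max_left _ _) (Real.rpow_nonneg (by positivity) _)
    _ ≤ max c 0 * ((sInf {T : ℕ | t ∈ F (R j + 1) T} : ℕ) : ℝ) ^ (-τ) := by
        refine mul_le_mul_of_nonneg_left ?_ (le_max_right _ _)
        exact Real.rpow_le_rpow_of_nonpos (by linarith) hmT' (by linarith)

theorem isProduct_mono {S T T' R R' X : ℕ} (hT : T ≤ T') (hR : R' ≤ R) (h : IsProduct S T R X) :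
    IsProduct S T' R' X := by
  obtain ⟨l, h1, h2, h3, h4⟩ := h
  exact ⟨l, h1, hR.trans h2, fun a ha => ⟨(h3 a ha).1, (h3 a ha).2.trans hT⟩, h4⟩

theorem not_isProduct {S R X : ℕ} : ¬ IsProduct S 0 (R + 1) X := by
  rintro ⟨l, -, h2, h3, -⟩
  rcases l with _ | ⟨a, l⟩
  · simp at h2
  · have h4 := h3 a (by simp)
    omega

theorem solutions_mono {S Q T T' R R' A B C : ℕ} (hT : T ≤ T') (hR : R' ≤ R) :
    Solutions S Q T R A B C ⊆ Solutions S Q T' R' A B C := by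
  rintro w ⟨h1, h2, h3, h4, h5⟩
  exact ⟨h1, h2, isProduct_mono hT hR h3, isProduct_mono hT hR h4, isProduct_mono hT hR h5⟩

/-- **Theorem.** Let `E` be a metric space, `φ` a map from `ℚ` to `E` and `ψ` a map from the triples
`(X, Y, Z)` to `E`. There is a set `N` of Hausdorff dimension zero such that for all `ξ` outside `N`, all
positive integers `A`, `B`, `C`, all `S`, `Q`, `c` and `τ > 0` there is `R` such that
(1) only finitely many rational numbers `t` satisfy for some `T`: `t` is the ratio `A X / (C Z)` of a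
solution of `A X + B Y = C Z` with `gcd (X, Y) ≤ Q rad (gcd (X, Y))` in products of spread at most `S`
and degree at least `R` with all factors at most `T`, and `dist (φ t) ξ ≤ c T ^ (-τ)`;
(2) only finitely many such solutions `w = (X, Y, Z)` with `gcd (X, Y) ≤ Q` satisfy
`dist (ψ w) ξ ≤ c T ^ (-τ)` for some `T` such that all factors are at most `T`. -/
theorem result (E : Type) [MetricSpace E] (φ : ℚ → E) (ψ : ℕ × ℕ × ℕ → E) :
    ∃ N : Set E, dimH N = 0 ∧ ∀ ξ : E, ξ ∉ N → ∀ S Q A B C : ℕ, 0 < A → 0 < B → 0 < C →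
      ∀ c τ : ℝ, 0 < τ → ∃ R : ℕ,
        {t : ℚ | ∃ T : ℕ, t ∈ Ratios S Q T R A B C ∧
          dist (φ t) ξ ≤ c * (T : ℝ) ^ (-τ)}.Finite ∧
        {w : ℕ × ℕ × ℕ | ∃ T : ℕ, w ∈ Solutions S Q T R A B C ∧ Nat.gcd w.1 w.2.1 ≤ Q ∧
          dist (ψ w) ξ ≤ c * (T : ℝ) ^ (-τ)}.Finite := by
  classical
  have h1 : ∀ p : ℕ × ℕ × ℕ × ℕ × ℕ, ∃ N : Set E, dimH N = 0 ∧ ∀ ξ : E, ξ ∉ N →
      0 < p.2.2.1 → 0 < p.2.2.2.1 → 0 < p.2.2.2.2 → ∀ c τ : ℝ, 0 < τ →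
      ∃ R : ℕ, {t : ℚ | ∃ T : ℕ, t ∈ Ratios p.1 p.2.1 T R p.2.2.1 p.2.2.2.1 p.2.2.2.2 ∧
        dist (φ t) ξ ≤ c * (T : ℝ) ^ (-τ)}.Finite := by
    rintro ⟨S, Q, A, B, C⟩
    by_cases hp : 0 < A ∧ 0 < B ∧ 0 < C
    · obtain ⟨N, hN, h⟩ := near_family (K := ℚ) (E := E) (fun R T => Ratios S Q T R A B C)
        (fun R T T' hTT => by
          rintro t ⟨w, hw, h⟩
          exact ⟨w, solutions_mono hTT le_rfl hw, h⟩)
        (fun R T => by
          rintro t ⟨w, hw, h⟩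
          exact ⟨w, solutions_mono le_rfl (Nat.le_succ R) hw, h⟩)
        (fun R => by
          rw [Set.eq_empty_iff_forall_notMem]
          rintro t ⟨w, ⟨-, -, h3, -, -⟩, -⟩
          exact not_isProduct h3)
        (fun ε hε => by
          obtain ⟨R, C₀, hC₀, h⟩ := AllDegreesCount.result S Q A B C hp.1 hp.2.1 hp.2.2 ε hε
          exact ⟨R, C₀, hC₀, fun T hT => (h T hT).1⟩) φ
      exact ⟨N, hN, fun ξ hξ _ _ _ c τ hτ => h ξ hξ c τ hτ⟩
    · exact ⟨∅, dimH_empty, fun ξ _ a b d => absurd ⟨a, b, d⟩ hp⟩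
  have h2 : ∀ p : ℕ × ℕ × ℕ × ℕ × ℕ, ∃ N : Set E, dimH N = 0 ∧ ∀ ξ : E, ξ ∉ N →
      0 < p.2.2.1 → 0 < p.2.2.2.1 → 0 < p.2.2.2.2 → ∀ c τ : ℝ, 0 < τ →
      ∃ R : ℕ, {w : ℕ × ℕ × ℕ | ∃ T : ℕ, w ∈ {w ∈ Solutions p.1 p.2.1 T R p.2.2.1 p.2.2.2.1 p.2.2.2.2 |
        Nat.gcd w.1 w.2.1 ≤ p.2.1} ∧ dist (ψ w) ξ ≤ c * (T : ℝ) ^ (-τ)}.Finite := by
    rintro ⟨S, Q, A, B, C⟩
    by_cases hp : 0 < A ∧ 0 < B ∧ 0 < C
    · obtain ⟨N, hN, h⟩ := near_family (K := ℕ × ℕ × ℕ) (E := E)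
        (fun R T => {w ∈ Solutions S Q T R A B C | Nat.gcd w.1 w.2.1 ≤ Q})
        (fun R T T' hTT => by
          rintro w ⟨hw, h⟩
          exact ⟨solutions_mono hTT le_rfl hw, h⟩)
        (fun R T => by
          rintro w ⟨hw, h⟩
          exact ⟨solutions_mono le_rfl (Nat.le_succ R) hw, h⟩)
        (fun R => by
          rw [Set.eq_empty_iff_forall_notMem]
          rintro w ⟨⟨-, -, h3, -, -⟩, -⟩
          exact not_isProduct h3)
        (fun ε hε => by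
          obtain ⟨R, C₀, hC₀, h⟩ := AllDegreesCount.result S Q A B C hp.1 hp.2.1 hp.2.2 ε hε
          exact ⟨R, C₀, hC₀, fun T hT => (h T hT).2⟩) ψ
      exact ⟨N, hN, fun ξ hξ _ _ _ c τ hτ => h ξ hξ c τ hτ⟩
    · exact ⟨∅, dimH_empty, fun ξ _ a b d => absurd ⟨a, b, d⟩ hp⟩
  choose N₁ hN₁ hg₁ using h1
  choose N₂ hN₂ hg₂ using h2
  refine ⟨(⋃ p, N₁ p) ∪ ⋃ p, N₂ p, ?_, fun ξ hξ S Q A B C hA hB hC c τ hτ => ?_⟩
  · rw [dimH_union, dimH_iUnion, dimH_iUnion]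
    simp [hN₁, hN₂]
  · rw [Set.mem_union, not_or, Set.mem_iUnion, Set.mem_iUnion] at hξ
    push Not at hξ
    obtain ⟨R₁, h₁⟩ := hg₁ (S, Q, A, B, C) ξ (hξ.1 _) hA hB hC c τ hτ
    obtain ⟨R₂, h₂⟩ := hg₂ (S, Q, A, B, C) ξ (hξ.2 _) hA hB hC c τ hτ
    refine ⟨max R₁ R₂, h₁.subset ?_, h₂.subset ?_⟩
    · rintro t ⟨T, ⟨w, hw, h3⟩, h4⟩
      exact ⟨T, ⟨w, solutions_mono le_rfl (le_max_left _ _) hw, h3⟩, h4⟩
    · rintro w ⟨T, hw, h3, h4⟩
      exact ⟨T, ⟨solutions_mono le_rfl (le_max_right _ _) hw, h3⟩, h4⟩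

end Pool.Agent.Results.MP_4ffbf9_nt.RatiosNearAPointH38
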